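import Pool.Agent.H817.SV.Main
import Pool.Agent.H817.PL.Cmp
import Pool.Agent.H817.PL.Scal
import Pool.Agent.H817.PL.Tr
import Pool.Agent.H817.PL.C21
import Pool.Agent.H817.IB.Alg
import Pool.Agent.H817.IB.Fg

/-!
# Three-dimensional bases of Lagrangian torus bundles

By action-angle coordinates the base `B` of a Lagrangian torus bundle has an integral affine
structure. It is shown here that a closed manifold of dimension three with an integral affine
structure whose developing map is injective is covered by the affine space, that its group is
virtually solvable, and that a finite covering of it has a homomorphism of its group onto the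
integers. (By the theory of closed 3-manifolds these are the flat, the nil and the sol manifolds.)

The integral affine structure has parallel volume; it is complete by the theorem
`ThreeDimensionalDomainQuotients` on the page of the Markus conjecture (MP_df2bd8_gt), and the
linear holonomy of the complete ones is virtually reducible.
-/

set_option autoImplicit false

namespace Pool.Agent.Results.MP_7a8a58_gt.ThreeDimensionalBases

/-- A closed integral affine manifold `Γ \ X` of dimension `n`, modelled on the vector space `E`
with its lattice generated by the basis `b`: the group `Γ` acts on the Hausdorff space `X` freely,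
properly discontinuously and with compact quotient, and the developing map `dev` is a local
homeomorphism to `E` that is equivariant with respect to the affine holonomy `hol`; the matrices of
the linear holonomy with respect to `b` are integral (so they lie in `GL(n, ℤ)`). -/
structure ClosedIntegralAffine (X Γ E : Type) [TopologicalSpace X] [Group Γ] [MulAction Γ X]
    [NormedAddCommGroup E] [NormedSpace ℝ E] (dev : X → E) (hol : Γ →* (E ≃ᵃ[ℝ] E)) {n : ℕ}
    (b : Module.Basis (Fin n) ℝ E) : Prop where
  /-- the developing map is a local homeomorphism -/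
  loc : IsLocalHomeomorph dev
  /-- the group acts by homeomorphisms -/
  cont : ∀ γ : Γ, Continuous fun x : X => γ • x
  /-- the developing map is equivariant -/
  equi : ∀ (γ : Γ) (x : X), dev (γ • x) = hol γ (dev x)
  /-- the linear holonomy has integral matrices -/
  integral : ∀ (γ : Γ) (i j : Fin n), ∃ m : ℤ, b.repr ((hol γ).linear (b j)) i = m
  /-- the action is free -/
  free : ∀ (γ : Γ) (x : X), γ • x = x → γ = 1
  /-- the action is properly discontinuous -/
  pd : ∀ K : Set X, IsCompact K → {γ : Γ | ∃ x ∈ K, γ • x ∈ K}.Finite
  /-- the quotient is compact -/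
  cc : ∃ K : Set X, IsCompact K ∧ ∀ x : X, ∃ γ : Γ, ∃ k ∈ K, γ • k = x

/-- Let `B = Γ \ X` be a closed integral affine manifold of dimension three, where `X` is a
connected cover of `B` and `Γ` its group, such that the developing map is injective; for instance
the base of a Lagrangian torus bundle with this property. Then the developing map is a homeomorphism
of `X` to the affine space, the group `Γ` is finitely generated and virtually solvable, and some
subgroup of finite index of `Γ` maps onto the integers. -/
theorem result (X Γ E : Type) [NormedAddCommGroup E] [NormedSpace ℝ E]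
    [FiniteDimensional ℝ E] [TopologicalSpace X] [T2Space X] [SecondCountableTopology X]
    [ConnectedSpace X] [Group Γ] [MulAction Γ X] (dev : X → E) (hol : Γ →* (E ≃ᵃ[ℝ] E))
    (b : Module.Basis (Fin 3) ℝ E) (A : ClosedIntegralAffine X Γ E dev hol b)
    (hinj : Function.Injective dev) :
    IsHomeomorph dev ∧ Group.FG Γ ∧
      (∃ H : Subgroup Γ, H.FiniteIndex ∧ Group.IsSolvable H) ∧
      ∃ H : Subgroup Γ, H.FiniteIndex ∧ ∃ f : H →* Multiplicative ℤ, Function.Surjective f := by
  have h3 : Module.finrank ℝ E = 3 := by
    rw [Module.finrank_eq_card_basis b, Fintype.card_fin]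
  have D : Pool.Agent.W689.Mk.AffData X Γ E dev hol :=
    ⟨A.loc, A.cont, A.equi, fun γ => Pool.Agent.H817.IB.det_int b (hol γ).linear (A.integral γ)
      (fun i j => by
        obtain ⟨m, hm⟩ := A.integral γ⁻¹ i j
        refine ⟨m, ?_⟩
        rw [← hm, map_inv]
        rfl), A.pd, A.cc⟩
  have hcomp : IsHomeomorph dev := Pool.Agent.H817.PL.complete3 D hinj h3
  have hirr := Pool.Agent.H817.PL.not_irr Pool.Agent.H817.PL.t_scal Pool.Agent.H817.PL.t_tr
    Pool.Agent.H817.PL.t_c21 D h3 hcomp
  unfold Pool.Agent.H817.PH.StrIrr at hirr
  push Not at hirr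
  obtain ⟨H, hH, W, hinv, hW0, hW1⟩ := hirr
  have hp : 0 < Module.finrank ℝ W :=
    Nat.pos_of_ne_zero fun h => hW0 (Submodule.finrank_eq_zero.1 h)
  have hl : Module.finrank ℝ W < 3 := by
    rw [← h3]
    exact Submodule.finrank_lt hW1
  have key : IsHomeomorph dev ∧ Group.IsSolvable (H.map hol) := by
    have h12 : Module.finrank ℝ W = 1 ∨ Module.finrank ℝ W = 2 := by omega
    rcases h12 with h1 | h2
    · exact Pool.Agent.H817.SV.line_case X Γ E dev hol D hinj H hH h3 W h1 hinv
    · exact Pool.Agent.H817.SV.plane_case X Γ E dev hol D hinj H hH W h2 2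
        (Pool.Agent.H817.SV.solv_mod Γ E hol H h3 W h2 hinv)
  have hsolv : ∃ H : Subgroup Γ, H.FiniteIndex ∧ Group.IsSolvable H :=
    (Pool.Agent.N520.SV.solv_zero X Γ E dev hol D A.free hcomp ⟨H, hH, key.2⟩).1
  have hfg : Group.FG Γ := Pool.Agent.H817.IB.fg D hcomp
  have hnt : Nontrivial E := Module.nontrivial_of_finrank_pos (R := ℝ) (by omega)
  exact ⟨hcomp, hfg, hsolv,
    Pool.Agent.H817.IB.vsolv_onto Γ (Pool.Agent.H817.IB.inf D hcomp hnt) hsolv⟩

end Pool.Agent.Results.MP_7a8a58_gt.ThreeDimensionalBases
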